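import Mathlib
import Pool.Agent.U196.EMC.Main

/-!
# The Erdős matching conjecture for all large `n`, away from the critical ratio

For every `k ≥ 3` and `ε > 0` there is `n0` such that for all `n ≥ n0` and all `s` with
`k (s + 1) ≤ n` the largest family of `k`-subsets of an `n`-set without `s + 1` pairwise disjoint
members has size exactly `max (C(n,k) - C(n-s,k)) (C(k(s+1)-1,k))`, except possibly when
`|s/n - x_k| < ε`, where it is still at most `(1 + ε)` times this number. Here `x_k` is the critical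
ratio, at which the two members of the maximum are asymptotically equal. As
`1/(k + 1/2) < x_k < 1/(k + 9/20)`, the conjecture holds in particular for all `n ≥ n0(k)` and all
`s` with `n ≥ (k + 1/2) s`, or with `k (s + 1) ≤ n ≤ (k + 9/20) s`.
-/

set_option autoImplicit false

namespace Pool.Agent.Results.MP_9079fe_co.ExactOffThreshold

open Finset

/-- the sizes of the families of `k`-element subsets of an `n`-set with matching number at most `s`
(every subfamily of pairwise disjoint sets has at most `s` members) -/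
def sizes (n k s : ℕ) : Set ℕ :=
  {m : ℕ | ∃ F : Finset (Finset (Fin n)), (∀ A ∈ F, A.card = k) ∧
    (∀ M ⊆ F, (M : Set (Finset (Fin n))).PairwiseDisjoint id → M.card ≤ s) ∧ F.card = m}

/-- Erdős' conjectured maximum -/
def emc (n k s : ℕ) : ℕ := max (n.choose k - (n - s).choose k) ((k * (s + 1) - 1).choose k)

/-- Let `k ≥ 3`. Let `x = x_k` be the unique solution in `(0, 1/k]` of `(k x)^k = 1 - (1-x)^k`; it
satisfies `1/(k + 1/2) < x < 1/(k + 9/20)`.

For every `ε > 0` there is `n0` such that for all `n ≥ n0` and all `s` with `k (s+1) ≤ n`, the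
largest size `e` of a family of `k`-subsets of an `n`-set with matching number at most `s` satisfies
`emc n k s ≤ e ≤ (1 + ε) emc n k s`, and `e = emc n k s` unless `|s - x n| < ε n`. -/
theorem result (k : ℕ) (hk : 3 ≤ k) :
    ∃ x : ℝ, 1 / ((k : ℝ) + 1 / 2) < x ∧ x < 1 / ((k : ℝ) + 9 / 20) ∧
      (k * x) ^ k = 1 - (1 - x) ^ k ∧
      (∀ y : ℝ, 0 < y → y ≤ 1 / (k : ℝ) → (k * y) ^ k = 1 - (1 - y) ^ k → y = x) ∧
      ∀ ε : ℝ, 0 < ε → ∃ n0 : ℕ, ∀ n : ℕ, n0 ≤ n → ∀ s : ℕ, k * (s + 1) ≤ n →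
        ∃ e : ℕ, IsGreatest (sizes n k s) e ∧ emc n k s ≤ e ∧ (e : ℝ) ≤ (1 + ε) * emc n k s ∧
          (ε * n ≤ |(s : ℝ) - x * n| → e = emc n k s) := by
  have hk0 : (0 : ℝ) < k := by exact_mod_cast (by omega : 0 < k)
  obtain ⟨x, hb1, hb2, hroot, huniq, H⟩ := Pool.Agent.U196.EMC.main k hk
  refine ⟨x, ?_, ?_, hroot, ?_, ?_⟩
  · have : 1 / ((k : ℝ) + 1 / 2) = 2 / (2 * (k : ℝ) + 1) := by
      rw [div_eq_div_iff (by positivity) (by positivity)]; ring
    rw [this]
    exact hb1
  · have : 1 / ((k : ℝ) + 9 / 20) = 20 / (20 * (k : ℝ) + 9) := by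
      rw [div_eq_div_iff (by positivity) (by positivity)]; ring
    rw [this]
    exact hb2
  · intro y hy0 hy1 hy
    rw [le_div_iff₀ hk0] at hy1
    exact huniq y hy0 (by linarith) hy
  intro ε hε
  obtain ⟨n0, h0⟩ := H ε hε
  refine ⟨n0, fun n hn s hsn => ?_⟩
  obtain ⟨h1, h2, h3, h4⟩ := h0 n hn s hsn
  refine ⟨Pool.Agent.W890.SF.mm n k s, ⟨?_, ?_⟩, h3, h4, ?_⟩
  · obtain ⟨F, hFc, hF, hFM⟩ := Pool.Agent.W890.SF.R2.mm_mem n k s
    exact ⟨F, hF, hFM, hFc⟩
  · rintro m ⟨F, hF, hFM, rfl⟩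
    exact Pool.Agent.W890.SF.R2.le_mm F hF hFM
  · intro habs
    refine le_antisymm ?_ h3
    rcases le_abs'.1 habs with h | h
    · rw [h1 (by linarith)]
      exact le_max_left _ _
    · rw [h2 (by linarith)]
      exact le_max_right _ _

end Pool.Agent.Results.MP_9079fe_co.ExactOffThreshold
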